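import Pool.Agent.H73.CBD.Stmts

/-!
Board CBD, row HPR.
-/

set_option autoImplicit false

open Set Filter Topology

namespace Pool.CBD

theorem hpr_thm (h1 : FEQStmt) (h2 : ALGStmt) (h3 : ALHStmt) : HPRStmt := by
  obtain ⟨-, -, -, -, -, -, hpos, hne, -⟩ := h2
  obtain ⟨-, hNc, -, -, -⟩ := h3
  have hN0 : N (0 : V) = 0 := by simp [N]
  have hf0 : f (0 : V) = 0 := by
    funext i
    fin_cases i <;> simp [f]
  have hH0 : H (0 : V) = 0 := by simp [H, hN0]
  refine ⟨fun z => ?_, fun c z => ?_, fun z => ?_⟩
  · by_cases hz : z = 0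
    · rw [hz, hf0, hH0]; norm_num
    · have hp := hpos z hz
      have hq := hpos (f z) (hne z hz)
      have hS := (h1 z hz).1
      have e1 : 2 * S z = u z + S (f z) := by linarith
      have e2 : Real.exp (u z) = N (f z) / N z ^ 2 := by
        unfold u
        rw [Real.exp_sub, Real.exp_log hq]
        congr 1
        rw [two_mul, Real.exp_add, Real.exp_log hp, sq]
      unfold H
      have e3 : (N z * Real.exp (S z)) ^ 2 = N z ^ 2 * Real.exp (2 * S z) := by
        rw [mul_pow, ← Real.exp_nat_mul]
        norm_num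
      rw [e3, e1, Real.exp_add, e2]
      have hp2 : N z ^ 2 ≠ 0 := pow_ne_zero 2 (ne_of_gt hp)
      rw [← mul_assoc, mul_div_cancel₀ _ hp2]
  · by_cases hc : c = 0
    · subst hc
      rw [zero_smul, hH0, norm_zero]; simp
    · by_cases hz : z = 0
      · subst hz
        rw [smul_zero, hH0, mul_zero]
      · unfold H
        rw [(h1 z hz).2.2.2 c hc, hNc, mul_assoc]
  · by_cases hz : z = 0
    · rw [hz, hH0, hN0]; norm_num
    · have hp := hpos z hz
      obtain ⟨-, ha, hb, -⟩ := h1 z hz
      have e1 : 1 ≤ Real.exp (S z) := Real.one_le_exp ha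
      have e2 : Real.exp (S z) ≤ 2 := by
        have := Real.exp_le_exp.2 hb
        rwa [Real.exp_log (by norm_num : (0 : ℝ) < 2)] at this
      unfold H
      constructor
      · exact le_mul_of_one_le_right hp.le e1
      · rw [mul_comm 2 (N z)]
        exact mul_le_mul_of_nonneg_left e2 hp.le

end Pool.CBD
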